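import Pool.Agent.J4H92.CM.Stm

/-! Project CM (MP_768c9c_nt): BND. -/

set_option autoImplicit false

namespace Pool.Agent.J4H66.CM

open Filter Topology MeasureTheory Set Pool.Agent.J4H92.CM

theorem t_BND : S_BND := by
  intro f C c M hC hc hM c' hcc
  have hc' : 0 < c' := lt_of_le_of_lt hc hcc
  have hd : 0 < c' ^ 2 - c ^ 2 := by nlinarith
  obtain ⟨T0, hT0⟩ : ∃ T0 : ℝ, T0 = max ((M : ℝ) + 2) (c' ^ 2 / (c' ^ 2 - c ^ 2)) := ⟨_, rfl⟩
  have hT1 : (M : ℝ) + 2 ≤ T0 := hT0 ▸ le_max_left _ _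
  have hT2 : c' ^ 2 / (c' ^ 2 - c ^ 2) ≤ T0 := hT0 ▸ le_max_right _ _
  have hM0 : (0:ℝ) ≤ M := Nat.cast_nonneg M
  refine ⟨|C| * (T0 - 1), fun x hx1 hx2 => ?_⟩
  have hi1 : IntegrableOn (fun t : ℝ => (Ioc (1:ℝ) T0).indicator (fun _ => |C|) t) (Ioi 1) := by
    apply Integrable.integrableOn
    rw [integrable_indicator_iff measurableSet_Ioc]
    exact integrableOn_const (by simp)
  have hi2 : IntegrableOn (fun t : ℝ => c' * t ^ (-(x + 3 / 2))) (Ioi 1) :=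
    (integrableOn_Ioi_rpow_of_lt (by linarith) one_pos).const_mul c'
  have hgi : IntegrableOn (fun t : ℝ => (Ioc (1:ℝ) T0).indicator (fun _ => |C|) t +
      c' * t ^ (-(x + 3 / 2))) (Ioi 1) := hi1.add hi2
  have hgv : ∫ t in Ioi (1:ℝ), ((Ioc (1:ℝ) T0).indicator (fun _ => |C|) t +
      c' * t ^ (-(x + 3 / 2))) = |C| * (T0 - 1) + c' / (x + 1 / 2) := by
    rw [integral_add hi1 hi2, integral_const_mul, integral_Ioi_rpow_of_lt (by linarith) one_pos]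
    rw [setIntegral_indicator measurableSet_Ioc]
    have h1 : Ioi (1:ℝ) ∩ Ioc 1 T0 = Ioc 1 T0 := by
      ext t
      simp only [mem_inter_iff, mem_Ioi, mem_Ioc]
      tauto
    rw [h1, setIntegral_const]
    have h2 : volume.real (Ioc (1:ℝ) T0) = T0 - 1 := by
      rw [Measure.real, Real.volume_Ioc, ENNReal.toReal_ofReal (by linarith)]
    rw [h2, smul_eq_mul, Real.one_rpow]
    have h3 : x + 1 / 2 ≠ 0 := by linarith
    have h4 : -(x + 3 / 2) + 1 = -(x + 1 / 2) := by ring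
    rw [h4]
    field_simp
  have hpt : ∀ t ∈ Ioi (1:ℝ), ‖S f ⌊t⌋₊ * (t : ℂ) ^ (-((x:ℂ) + 1))‖ ≤
      (Ioc (1:ℝ) T0).indicator (fun _ => |C|) t + c' * t ^ (-(x + 3 / 2)) := by
    intro t ht
    have ht1 : (1:ℝ) < t := ht
    have ht0 : (0:ℝ) < t := by linarith
    have hfl : 0 < ⌊t⌋₊ := Nat.floor_pos.2 ht1.le
    have hflr : (1:ℝ) ≤ (⌊t⌋₊ : ℝ) := by exact_mod_cast hfl
    rw [norm_mul, Complex.norm_cpow_eq_rpow_re_of_pos ht0]
    have hre : (-((x:ℂ) + 1)).re = -(x + 1) := by simp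
    rw [hre]
    have hpow0 : 0 ≤ t ^ (-(x + 1)) := Real.rpow_nonneg ht0.le _
    by_cases hcase : t ≤ T0
    · rw [indicator_of_mem (show t ∈ Ioc (1:ℝ) T0 from ⟨ht1, hcase⟩)]
      have h1 : ‖S f ⌊t⌋₊‖ ≤ |C| := by
        refine (hC _ hfl).trans ?_
        have hs : 1 ≤ Real.sqrt (⌊t⌋₊ : ℝ) := Real.one_le_sqrt.2 hflr
        calc C / Real.sqrt (⌊t⌋₊ : ℝ) ≤ |C| / Real.sqrt (⌊t⌋₊ : ℝ) :=
              div_le_div_of_nonneg_right (le_abs_self C) (by positivity)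
          _ ≤ |C| := div_le_self (abs_nonneg C) hs
      have h2 : t ^ (-(x + 1)) ≤ 1 := Real.rpow_le_one_of_one_le_of_nonpos ht1.le (by linarith)
      have h3 : ‖S f ⌊t⌋₊‖ * t ^ (-(x + 1)) ≤ |C| * 1 :=
        mul_le_mul h1 h2 hpow0 (abs_nonneg C)
      have h4 : 0 ≤ c' * t ^ (-(x + 3 / 2)) := mul_nonneg hc'.le (Real.rpow_nonneg ht0.le _)
      linarith
    · push Not at hcase
      rw [indicator_of_notMem (fun h : t ∈ Ioc (1:ℝ) T0 => absurd h.2 (not_le.2 hcase)), zero_add]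
      have hMf : M ≤ ⌊t⌋₊ := Nat.le_floor (by linarith)
      have h1 := hM _ hMf hfl
      have hfl2 : t - 1 ≤ (⌊t⌋₊ : ℝ) := by
        have := Nat.lt_floor_add_one t
        linarith
      have h2 : c ^ 2 * t ≤ c' ^ 2 * (⌊t⌋₊ : ℝ) := by
        have h5 : c' ^ 2 ≤ (c' ^ 2 - c ^ 2) * t := by
          have := (div_le_iff₀ hd).1 (hT2.trans hcase.le)
          linarith
        nlinarith [sq_nonneg c']
      have h3 : c / Real.sqrt (⌊t⌋₊ : ℝ) ≤ c' / Real.sqrt t := by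
        rw [div_le_div_iff₀ (Real.sqrt_pos.2 (by linarith)) (Real.sqrt_pos.2 ht0)]
        have h6 := Real.sqrt_le_sqrt h2
        rw [Real.sqrt_mul (sq_nonneg c), Real.sqrt_sq hc, Real.sqrt_mul (sq_nonneg c'),
          Real.sqrt_sq hc'.le] at h6
        exact h6
      have h4 : c' / Real.sqrt t * t ^ (-(x + 1)) = c' * t ^ (-(x + 3 / 2)) := by
        rw [Real.sqrt_eq_rpow, div_mul_eq_mul_div, mul_div_assoc, ← Real.rpow_sub ht0]
        congr 2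
        ring
      calc ‖S f ⌊t⌋₊‖ * t ^ (-(x + 1)) ≤ c' / Real.sqrt t * t ^ (-(x + 1)) :=
            mul_le_mul_of_nonneg_right (h1.trans h3) hpow0
        _ = c' * t ^ (-(x + 3 / 2)) := h4
  have key := norm_integral_le_of_norm_le hgi
    ((ae_restrict_iff' measurableSet_Ioi).2 (Eventually.of_forall hpt))
  rw [hgv] at key
  have hm : m f (x : ℂ) = ∫ t in Set.Ioi (1 : ℝ), S f ⌊t⌋₊ * (t : ℂ) ^ (-((x : ℂ) + 1)) := rfl
  rw [hm]
  linarith

end Pool.Agent.J4H66.CM
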